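import Mathlib

set_option autoImplicit false

namespace Pool.Agent.Results.MP_1cb079_al.WeakCancellation

open Subgroup
open scoped commutatorElement

/-- `G` is almost torsion-free: `G[n] = {g | g ^ n = 1}` is finite for every `n ≥ 1`. -/
def AlmostTorsionFree (G : Type) [Group G] : Prop := ∀ n : ℕ, 0 < n → {g : G | g ^ n = 1}.Finite

/-- The weak cancellation law: for every `n ≥ 1` and `y` the equation `x ^ n = y` has finitely
many solutions `x` in `G`. -/
def WCL (G : Type) [Group G] : Prop := ∀ n : ℕ, 0 < n → ∀ y : G, {x : G | x ^ n = y}.Finite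

lemma comm_mem {G : Type} [Group G] (E : Subgroup G) [hE : E.Normal] (X : Set G) (a : G)
    (h : ∀ s ∈ X, ⁅s, a⁆ ∈ E) : ∀ g ∈ closure X, ⁅g, a⁆ ∈ E := by
  intro g hg
  induction hg using Subgroup.closure_induction with
  | mem x hx => exact h x hx
  | one => simp
  | mul x y _ _ hx hy =>
    have : ⁅x * y, a⁆ = x * ⁅y, a⁆ * x⁻¹ * ⁅x, a⁆ := by
      simp only [commutatorElement_def]; group
    rw [this]
    exact E.mul_mem (hE.conj_mem _ hy x) hx
  | inv x _ hx =>
    have : ⁅x⁻¹, a⁆ = x⁻¹ * ⁅x, a⁆⁻¹ * x⁻¹⁻¹ := by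
      simp only [commutatorElement_def]; group
    rw [this]
    exact hE.conj_mem _ (E.inv_mem hx) x⁻¹

/-- the subgroup generated by `x` and the commutator subgroup has smaller class -/
lemma lcs_le {G : Type} [Group G] (x : G) (i : ℕ) :
    (closure ({x} ∪ (commutator G : Set G))).lowerCentralSeries (i + 1) ≤
      (⊤ : Subgroup G).lowerCentralSeries (i + 2) := by
  induction i with
  | zero =>
    set H := closure ({x} ∪ (commutator G : Set G))
    set E : Subgroup G := (⊤ : Subgroup G).lowerCentralSeries 2 with hE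
    have hnE : E.Normal := by infer_instance
    have hD : ∀ d ∈ commutator G, ∀ g : G, ⁅d, g⁆ ∈ E := by
      intro d hd g
      rw [hE, Subgroup.lowerCentralSeries_succ, top_lowerCentralSeries_one]
      exact commutator_mem_commutator hd (mem_top g)
    have h1 : ∀ h ∈ H, ⁅h, x⁆ ∈ E := by
      apply comm_mem E
      rintro s (hs | hs)
      · rw [hs]; simp
      · exact hD s hs x
    have h2 : ∀ h ∈ H, ∀ g ∈ H, ⁅g, h⁆ ∈ E := by
      intro h hh
      apply comm_mem E
      rintro s (hs | hs)
      · rw [hs, ← commutatorElement_inv]; exact E.inv_mem (h1 h hh)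
      · exact hD s hs h
    rw [zero_add, Subgroup.lowerCentralSeries_succ, Subgroup.lowerCentralSeries_zero, commutator_le]
    intro g hg h hh
    exact h2 h hh g hg
  | succ i ih =>
    rw [Subgroup.lowerCentralSeries_succ, Subgroup.lowerCentralSeries_succ _ (i + 2)]
    exact commutator_mono ih le_top

lemma lcs_mono {G : Type} [Group G] {H K : Subgroup G} (h : H ≤ K) (i : ℕ) :
    H.lowerCentralSeries i ≤ K.lowerCentralSeries i := by
  induction i with
  | zero => exact h
  | succ i ih => exact commutator_mono ih h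

lemma lcs_type {G : Type} [Group G] (H : Subgroup G) (i : ℕ) (h : H.lowerCentralSeries i = ⊥) :
    (⊤ : Subgroup H).lowerCentralSeries i = ⊥ := by
  rw [← top_subtype_lowerCentralSeries] at h
  rwa [← map_subtype_inj, Subgroup.map_bot]

/-- the statement proved by induction -/
def Q (c n N : ℕ) : Prop := ∀ (G : Type) [Group G], (⊤ : Subgroup G).lowerCentralSeries (c + 1) = ⊥ →
  (∀ X : Set G, closure X = ⊤ → (∀ s ∈ X, s ^ n = 1) → ∀ g : G, g ^ N = 1) ∧
  (∀ x y : G, x ^ n = y ^ n → (x⁻¹ * y) ^ N = 1)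

lemma Q_zero (n : ℕ) : Q 0 n n := by
  intro G _ hG
  rw [zero_add, top_lowerCentralSeries_one] at hG
  have hc : ∀ a b : G, a * b = b * a := by
    intro a b
    have : ⁅a, b⁆ ∈ commutator G := commutator_mem_commutator (mem_top a) (mem_top b)
    rw [hG, mem_bot] at this
    exact commutatorElement_eq_one_iff_mul_comm.mp this
  refine ⟨fun X hX hs g => ?_, fun x y hxy => ?_⟩
  · have hg : g ∈ closure X := by rw [hX]; trivial
    induction hg using Subgroup.closure_induction with
    | mem x hx => exact hs x hx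
    | one => simp
    | mul x y _ _ hx hy => rw [(show Commute x y from hc x y).mul_pow, hx, hy, one_mul]
    | inv x _ hx => rw [inv_pow, hx, inv_one]
  · rw [(show Commute x⁻¹ y from hc _ _).mul_pow, inv_pow, hxy, inv_mul_cancel]

lemma comm_pow {c n N : ℕ} (hQ : Q c n N) {G : Type} [Group G]
    (hG : (⊤ : Subgroup G).lowerCentralSeries (c + 2) = ⊥) (x y : G)
    (h : Commute y (x ^ n)) : ⁅x, y⁆ ^ N = 1 := by
  set H := closure ({x} ∪ (commutator G : Set G)) with hH
  have h1 : H.lowerCentralSeries (c + 1) = ⊥ := le_bot_iff.mp (hG ▸ lcs_le x c)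
  have h2 := (hQ H (lcs_type H _ h1)).2
  have hx : x ∈ H := subset_closure (Or.inl rfl)
  have hy : y * x⁻¹ * y⁻¹ ∈ H := by
    have e : y * x⁻¹ * y⁻¹ = x⁻¹ * ⁅x, y⁆ := by
      simp only [commutatorElement_def]; group
    rw [e]
    exact H.mul_mem (H.inv_mem hx)
      (subset_closure (Or.inr (commutator_mem_commutator (mem_top x) (mem_top y))))
  have h3 := h2 ⟨x⁻¹, H.inv_mem hx⟩ ⟨y * x⁻¹ * y⁻¹, hy⟩ (by
    apply Subtype.ext
    show (x⁻¹) ^ n = (y * x⁻¹ * y⁻¹) ^ n
    rw [conj_pow, inv_pow]
    have h5 : Commute y (x ^ n)⁻¹ := h.inv_right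
    rw [h5.eq, mul_inv_cancel_right])
  have h4 := congrArg Subtype.val h3
  have e : ((⟨x⁻¹, H.inv_mem hx⟩ : H)⁻¹ * ⟨y * x⁻¹ * y⁻¹, hy⟩ : H) = ⟨⁅x, y⁆, by
      have := H.mul_mem (H.inv_mem (H.inv_mem hx)) hy
      have e2 : x⁻¹⁻¹ * (y * x⁻¹ * y⁻¹) = ⁅x, y⁆ := by
        simp only [commutatorElement_def]; group
      rwa [e2] at this⟩ := by
    apply Subtype.ext
    show x⁻¹⁻¹ * (y * x⁻¹ * y⁻¹) = ⁅x, y⁆
    simp only [commutatorElement_def]; group
  rw [e] at h4
  exact h4

lemma pow_of_mem_commutator {c n N : ℕ} (hQ : Q c n N) {G : Type} [Group G]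
    (hG : (⊤ : Subgroup G).lowerCentralSeries (c + 2) = ⊥) (X : Set G) (hX : closure X = ⊤)
    (h : ∀ a ∈ X, ∀ b ∈ X, ⁅a, b⁆ ^ n = 1) : ∀ g ∈ commutator G, g ^ N = 1 := by
  set T : Set G := {t | ∃ a ∈ X, ∃ b ∈ X, t = ⁅a, b⁆} with hT
  set M := normalClosure T with hM
  have hDM : commutator G ≤ M := by
    have h1 : ∀ a ∈ X, ∀ g : G, ⁅g, a⁆ ∈ M := by
      intro a ha g
      refine comm_mem M X a ?_ g (by rw [hX]; trivial)
      intro s hs
      exact subset_normalClosure ⟨s, hs, a, ha, rfl⟩
    rw [_root_.commutator_def, commutator_le]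
    intro g _ k _
    refine comm_mem M X k ?_ g (by rw [hX]; trivial)
    intro s hs
    rw [← commutatorElement_inv]
    exact M.inv_mem (h1 s hs k)
  set Z := closure ({(1 : G)} ∪ (commutator G : Set G)) with hZ
  have hZ1 : Z.lowerCentralSeries (c + 1) = ⊥ := le_bot_iff.mp (hG ▸ lcs_le 1 c)
  have hMZ : M ≤ Z := by
    rw [hM]
    have hTD : T ⊆ commutator G := by
      rintro t ⟨a, _, b, _, rfl⟩
      exact commutator_mem_commutator (mem_top a) (mem_top b)
    have : normalClosure T ≤ commutator G := normalClosure_le_normal hTD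
    exact this.trans (fun g hg => subset_closure (Or.inr hg))
  have hM1 : M.lowerCentralSeries (c + 1) = ⊥ := le_bot_iff.mp (hZ1 ▸ lcs_mono hMZ _)
  have hM2 : ∀ s ∈ Group.conjugatesOfSet T, s ^ n = 1 := by
    intro s hs
    rw [Group.mem_conjugatesOfSet_iff] at hs
    obtain ⟨t, ⟨a, ha, b, hb, rfl⟩, hconj⟩ := hs
    obtain ⟨k, hk⟩ := isConj_iff.mp hconj
    rw [← hk, conj_pow, h a ha b hb]; simp
  intro g hg
  have h3 := (hQ M (lcs_type M _ hM1)).1 ((↑) ⁻¹' (Group.conjugatesOfSet T))
    (by rw [hM]; exact closure_closure_coe_preimage) (by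
      rintro ⟨s, hs⟩ hs2
      apply Subtype.ext
      exact hM2 s hs2) ⟨g, hDM hg⟩
  exact congrArg Subtype.val h3

lemma Q_succ {c n N1 N2 : ℕ} (h1 : Q c n N1) (h2 : Q c N1 N2) : Q (c + 1) n (n * N2) := by
  intro G _ hG
  have habel : ∀ (K : Type) [Group K] (g : K), (Abelianization.of g) ^ n = 1 → g ^ n ∈ commutator K := by
    intro K _ g hg
    rw [← map_pow] at hg
    rw [← Abelianization.ker_of]
    exact hg
  refine ⟨fun X hX hs g => ?_, fun x y hxy => ?_⟩
  · have hcom := pow_of_mem_commutator h2 hG X hX (by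
      intro a ha b _
      apply comm_pow h1 hG
      rw [hs a ha]
      exact Commute.one_right b)
    have hg : g ∈ closure X := by rw [hX]; trivial
    have hg2 : (Abelianization.of g) ^ n = 1 := by
      induction hg using Subgroup.closure_induction with
      | mem x hx => rw [← map_pow, hs x hx, map_one]
      | one => simp
      | mul x y _ _ hx hy => rw [map_mul, mul_pow, hx, hy, one_mul]
      | inv x _ hx => rw [map_inv, inv_pow, hx, inv_one]
    rw [pow_mul]
    exact hcom _ (habel G g hg2)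
  · -- pass to the subgroup generated by `x` and `y`
    set L := closure ({x, y} : Set G) with hL
    have hx : x ∈ L := subset_closure (by simp)
    have hy : y ∈ L := subset_closure (by simp)
    have hLl : (⊤ : Subgroup L).lowerCentralSeries (c + 2) = ⊥ := by
      apply lcs_type
      exact le_bot_iff.mp (hG ▸ lcs_mono le_top _)
    set x' : L := ⟨x, hx⟩ with hx'
    set y' : L := ⟨y, hy⟩ with hy'
    have hxy' : x' ^ n = y' ^ n := Subtype.ext hxy
    have hXL : closure (((↑) : L → G) ⁻¹' ({x, y} : Set G)) = ⊤ := closure_closure_coe_preimage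
    have hcom := pow_of_mem_commutator h2 hLl _ hXL (by
      intro a ha b hb
      apply comm_pow h1 hLl
      have ha' : a = x' ∨ a = y' := by
        rcases ha with h | h
        · left; exact Subtype.ext h
        · right; exact Subtype.ext h
      have hb' : b = x' ∨ b = y' := by
        rcases hb with h | h
        · left; exact Subtype.ext h
        · right; exact Subtype.ext h
      rcases ha' with rfl | rfl <;> rcases hb' with rfl | rfl
      · exact (Commute.refl _).pow_right n
      · rw [hxy']; exact (Commute.refl _).pow_right n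
      · rw [← hxy']; exact (Commute.refl _).pow_right n
      · exact (Commute.refl _).pow_right n)
    have hz : (Abelianization.of (x'⁻¹ * y')) ^ n = 1 := by
      rw [map_mul, mul_pow, map_inv, inv_pow, ← map_pow, ← map_pow, hxy', inv_mul_cancel]
    have h5 := hcom _ (habel L _ hz)
    rw [← pow_mul] at h5
    exact congrArg Subtype.val h5

lemma exists_Q (c n : ℕ) (hn : 0 < n) : ∃ N, 0 < N ∧ Q c n N := by
  induction c generalizing n with
  | zero => exact ⟨n, hn, Q_zero n⟩
  | succ c ih =>
    obtain ⟨N1, hN1, h1⟩ := ih n hn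
    obtain ⟨N2, hN2, h2⟩ := ih N1 hN1
    exact ⟨n * N2, Nat.mul_pos hn hN2, Q_succ h1 h2⟩

/-- Every nilpotent almost torsion-free group satisfies the weak cancellation law. -/
theorem result (G : Type) [Group G] [Group.IsNilpotent G] (h : AlmostTorsionFree G) : WCL G := by
  intro n hn y
  obtain ⟨c, hc⟩ := Subgroup.nilpotent_iff_lowerCentralSeries.mp (inferInstance : Group.IsNilpotent G)
  have hc' : (⊤ : Subgroup G).lowerCentralSeries (c + 1) = ⊥ :=
    le_bot_iff.mp (hc ▸ Subgroup.lowerCentralSeries_antitone _ (Nat.le_succ c))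
  obtain ⟨N, hN, hQ⟩ := exists_Q c n hn
  by_cases hne : ∃ x : G, x ^ n = y
  · obtain ⟨x, hx⟩ := hne
    refine ((h N hN).image (fun t => x * t)).subset ?_
    intro z hz
    refine ⟨x⁻¹ * z, (hQ G hc').2 x z (by rw [hx]; exact hz.symm), by simp⟩
  · convert Set.finite_empty
    ext x
    simp only [Set.mem_ofPred_eq, Set.mem_empty_iff_false, iff_false]
    exact fun hx => hne ⟨x, hx⟩

end Pool.Agent.Results.MP_1cb079_al.WeakCancellation
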